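import Pool.Agent.K6.H28.SF.Tf

set_option autoImplicit false

/-! # Minimal counterexamples to the vanishing of `K̃₀(ℤG)` for torsion-free groups

If Q1 is false, it is false for a finitely generated torsion-free group `G` and a finitely generated
projective module over `ℤG` which becomes stably free over all torsion-free proper quotients of
`G`. -/

namespace Pool.Agent.Results.MP_551055_al.MinimalCounterexamples

open Matrix Pool.Agent.K6.H28.SF

/-- `G` is torsion-free -/
def TorsionFree (G : Type) [Group G] : Prop := ∀ g : G, IsOfFinOrder g → g = 1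

/-- all finitely generated projective `ℤG`-modules are stably free -/
def AllStablyFree (G : Type) [Group G] : Prop :=
  ∀ (P : Type) [AddCommGroup P] [Module (MonoidAlgebra ℤ G) P],
    Module.Finite (MonoidAlgebra ℤ G) P → Module.Projective (MonoidAlgebra ℤ G) P →
    ∃ n m : ℕ, Nonempty ((P × (Fin n → MonoidAlgebra ℤ G)) ≃ₗ[MonoidAlgebra ℤ G]
      (Fin m → MonoidAlgebra ℤ G))

/-- the statement of Q1 -/
def Q1 : Prop := ∀ (G : Type) [Group G], TorsionFree G → AllStablyFree G

/-- the row module `(ℤG)ⁿ E` is stably free -/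
def StablyFree {G : Type} [Group G] {n : ℕ} (E : Matrix (Fin n) (Fin n) (MonoidAlgebra ℤ G)) :
    Prop :=
  ∃ a b : ℕ, Nonempty ((LinearMap.range E.vecMulLinear × (Fin a → MonoidAlgebra ℤ G))
    ≃ₗ[MonoidAlgebra ℤ G] (Fin b → MonoidAlgebra ℤ G))

/-- the image of a matrix under a homomorphism of groups -/
noncomputable def push {G H : Type} [Group G] [Group H] (f : G →* H) {ι κ : Type}
    (A : Matrix ι κ (MonoidAlgebra ℤ G)) : Matrix ι κ (MonoidAlgebra ℤ H) :=
  A.map (MonoidAlgebra.mapDomainRingHom ℤ f)

theorem stablyFree_iff {G : Type} [Group G] {n : ℕ}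
    (E : Matrix (Fin n) (Fin n) (MonoidAlgebra ℤ G)) (hE : E * E = E) : StablyFree E ↔ Sf E :=
  (sf_iff_row E hE).symm

theorem allStablyFree_iff {G : Type} [Group G] : AllStablyFree G ↔ AllSf G :=
  ⟨fun h _ E hE => sf_of_modules h E hE, fun h P _ _ hf hP => modules_of_sf h P hf hP⟩

/-- (1) Let `G` be a torsion-free group and `E` an idempotent matrix over `ℤG` which is not stably
free. There is a normal subgroup `L₀` of `G` with torsion-free quotient such that `E` is not stably
free over `G / L₀`, but is stably free over `G / L` for all normal subgroups `L` of `G` which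
properly contain `L₀` and have a torsion-free quotient.

(2) If Q1 is false, there are a finitely generated torsion-free group `G` and an idempotent matrix
`E` over `ℤG` which is not stably free, but is stably free over `G / L` for all nontrivial normal
subgroups `L` of `G` with torsion-free quotient. -/
theorem result :
    (∀ (G : Type) [Group G], TorsionFree G →
      ∀ (n : ℕ) (E : Matrix (Fin n) (Fin n) (MonoidAlgebra ℤ G)), E * E = E → ¬ StablyFree E →
      ∃ (L₀ : Subgroup G) (_ : L₀.Normal), TorsionFree (G ⧸ L₀) ∧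
        ¬ StablyFree (push (QuotientGroup.mk' L₀) E) ∧
        ∀ (L : Subgroup G) (_ : L.Normal), L₀ < L → TorsionFree (G ⧸ L) →
          StablyFree (push (QuotientGroup.mk' L) E)) ∧
    (¬ Q1 → ∃ (G : Type) (_ : Group G), Group.FG G ∧ TorsionFree G ∧
      ∃ (n : ℕ) (E : Matrix (Fin n) (Fin n) (MonoidAlgebra ℤ G)), E * E = E ∧ ¬ StablyFree E ∧
        ∀ (L : Subgroup G) (_ : L.Normal), L ≠ ⊥ → TorsionFree (G ⧸ L) →
          StablyFree (push (QuotientGroup.mk' L) E)) := by
  classical
  have hpush : ∀ {G H : Type} [Group G] [Group H] (f : G →* H) {n : ℕ}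
      (E : Matrix (Fin n) (Fin n) (MonoidAlgebra ℤ G)), E * E = E →
      push f E * push f E = push f E := by
    intro G H _ _ f n E hE
    unfold push
    rw [← Matrix.map_mul, hE]
  refine ⟨?_, ?_⟩
  · intro G _ htf n E hE hES
    obtain ⟨K, hKn, hKi, hKS, hmax⟩ := exists_maximal E
      (fun g k hk h => by
        rw [Subgroup.mem_bot] at h ⊢
        exact htf g (isOfFinOrder_iff_pow_eq_one.2 ⟨k, hk, h⟩))
      (fun h => hES ((stablyFree_iff E hE).2 h))
    refine ⟨K, hKn, quot_tf K hKi, fun h => hKS ?_, fun L hL hKL hLtf => ?_⟩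
    · exact (stablyFree_iff _ (hpush _ E hE)).1 h
    · refine (stablyFree_iff _ (hpush _ E hE)).2 (hmax L hL hKL ?_)
      intro g k hk h
      have h2 := hLtf (QuotientGroup.mk' L g) (isOfFinOrder_iff_pow_eq_one.2 ⟨k, hk, by
          rw [← map_pow, QuotientGroup.mk'_apply, QuotientGroup.eq_one_iff]; exact h⟩)
      rw [QuotientGroup.mk'_apply, QuotientGroup.eq_one_iff] at h2
      exact h2
  · intro hQ
    have h2 : ∃ (n : ℕ) (R : Finset (FreeGroup (Fin n))),
        ¬ AllSf (FreeGroup (Fin n) ⧸ tfKer (R : Set (FreeGroup (Fin n)))) := by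
      by_contra hcon
      push Not at hcon
      exact hQ fun G _ hG => allStablyFree_iff.2 (allSf_of_fp hcon G hG)
    obtain ⟨n, R, h3⟩ := h2
    have h4 : ∃ (m : ℕ) (E : Matrix (Fin m) (Fin m) (MonoidAlgebra ℤ (FreeGroup (Fin n) ⧸
        tfKer (R : Set (FreeGroup (Fin n)))))), E * E = E ∧ ¬ Sf E := by
      by_contra hcon
      push Not at hcon
      exact h3 hcon
    obtain ⟨m, E, hE, hES⟩ := h4
    obtain ⟨K, hKn, _, hKi, E', hE', hE'S, hmin⟩ :=
      exists_minimal _ (tfKer_isolated (R : Set (FreeGroup (Fin n)))) E hE hES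
    refine ⟨FreeGroup (Fin n) ⧸ K, inferInstance, QuotientGroup.fg _, quot_tf K hKi, m, E', hE',
      fun h => hE'S ((stablyFree_iff E' hE').1 h), fun L hLn hL hLtf => ?_⟩
    exact (stablyFree_iff _ (hpush _ E' hE')).2 (hmin L hLn hL hLtf)

end Pool.Agent.Results.MP_551055_al.MinimalCounterexamples
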