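import Pool.Agent.K6.H28.SF.Nilp

set_option autoImplicit false

/-! # Idempotent matrices over group rings of nilpotent groups with large torsion

For all `c, n, s` there is `N` such that over every nilpotent group of class at most `c` without
elements of the orders `2, …, N`, all idempotent `n × n` matrices of `ℓ¹`-norm at most `s` are
stably free by means of matrices of size and norm at most `N`. In particular this holds over all
`p`-groups of class at most `c` for `p > N`.

The proof: an ultraproduct of counterexamples would be an idempotent matrix over the group ring of a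
torsion-free nilpotent group. The modules over such a group ring have finite free resolutions (the
theorem of P. Hall, and the resolution `0 → D(n) → D(n+1) → M → 0` by induced modules for an
extension by the integers; both are proved in `Pool.Agent.K6.H28.SF`), so that its projective
modules are stably free. -/

namespace Pool.Agent.Results.MP_551055_al.NilpotentLargeTorsion

open Matrix Pool.Agent.K6.H28.SF

/-- `G` has no elements of the orders `2, …, N`; elements of larger finite order are allowed -/
def NoSmallTorsion (N : ℕ) (G : Type) [Group G] : Prop :=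
  ∀ (g : G) (k : ℕ), 0 < k → k ≤ N → g ^ k = 1 → g = 1

/-- the sum of the absolute values of the coefficients -/
def norm1 {G : Type} (x : MonoidAlgebra ℤ G) : ℕ := ∑ g ∈ x.coeff.support, (x.coeff g).natAbs

/-- the sum of the norms of the entries -/
def matNorm {G : Type} {ι κ : Type} [Fintype ι] [Fintype κ]
    (A : Matrix ι κ (MonoidAlgebra ℤ G)) : ℕ := ∑ i, ∑ j, norm1 (A i j)

/-- the row module `(ℤG)ⁿ E` is stably free -/
def StablyFree {G : Type} [Group G] {n : ℕ} (E : Matrix (Fin n) (Fin n) (MonoidAlgebra ℤ G)) :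
    Prop :=
  ∃ a b : ℕ, Nonempty ((LinearMap.range E.vecMulLinear × (Fin a → MonoidAlgebra ℤ G))
    ≃ₗ[MonoidAlgebra ℤ G] (Fin b → MonoidAlgebra ℤ G))

/-- `E` is stably free by means of matrices of size and norm at most `N`: the matrices `U` and `V`
are mutually inverse isomorphisms between `(ℤG)ⁿ E ⊕ (ℤG)ᵃ` and `(ℤG)ᵇ`. -/
def StablyFreeWithin (N : ℕ) {G : Type} [Group G] {n : ℕ}
    (E : Matrix (Fin n) (Fin n) (MonoidAlgebra ℤ G)) : Prop :=
  ∃ a ≤ N, ∃ b ≤ N, ∃ (U : Matrix (Fin n ⊕ Fin a) (Fin b) (MonoidAlgebra ℤ G))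
    (V : Matrix (Fin b) (Fin n ⊕ Fin a) (MonoidAlgebra ℤ G)),
    matNorm U ≤ N ∧ matNorm V ≤ N ∧ U * V = fromBlocks E 0 0 1 ∧ V * U = 1

theorem stablyFree_iff {G : Type} [Group G] {n : ℕ}
    (E : Matrix (Fin n) (Fin n) (MonoidAlgebra ℤ G)) (hE : E * E = E) : StablyFree E ↔ Sf E :=
  (sf_iff_row E hE).symm

theorem sf_of_within {G : Type} [Group G] {n N : ℕ}
    (E : Matrix (Fin n) (Fin n) (MonoidAlgebra ℤ G)) (h : StablyFreeWithin N E) : Sf E := by
  obtain ⟨a, _, b, _, U, V, _, _, h1, h2⟩ := h
  exact ⟨a, b, U, V, h1, h2⟩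

/-- For all `c, n, s` there is `N` such that for every nilpotent group `G` of class at most `c`
(`γ_{c+1}(G) = 1`) without elements of the orders `2, …, N`, every idempotent `n × n` matrix of norm
at most `s` over `ℤG` is stably free, and this by means of matrices of size and norm at most `N`. In
particular this is true for all `p`-groups of class at most `c`, for all primes `p > N`. -/
theorem result (c n s : ℕ) : ∃ N : ℕ,
    (∀ (G : Type) [Group G], (⊤ : Subgroup G).lowerCentralSeries c = ⊥ → NoSmallTorsion N G →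
      ∀ E : Matrix (Fin n) (Fin n) (MonoidAlgebra ℤ G), E * E = E → matNorm E ≤ s →
      StablyFree E ∧ StablyFreeWithin N E) ∧
    ∀ p : ℕ, p.Prime → N < p → ∀ (G : Type) [Group G], IsPGroup p G →
      (⊤ : Subgroup G).lowerCentralSeries c = ⊥ →
      ∀ E : Matrix (Fin n) (Fin n) (MonoidAlgebra ℤ G), E * E = E → matNorm E ≤ s →
      StablyFree E ∧ StablyFreeWithin N E := by
  classical
  have hclosed : ∀ (G : ℕ → Type) (inst : ∀ i, Group (G i)),
      (∀ i, (⊤ : Subgroup (G i)).lowerCentralSeries c = ⊥) →
      (⊤ : Subgroup ((∀ i, G i) ⧸ aeOne (Filter.hyperfilter ℕ) G)).lowerCentralSeries c = ⊥ := by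
    intro G inst hG
    have h2 : (⊤ : Subgroup (∀ i, G i)).lowerCentralSeries c = ⊥ := by
      rw [eq_bot_iff]
      refine (Subgroup.top_lowerCentralSeries_pi_le c).trans ?_
      simp only [hG]
      rw [Subgroup.pi_bot]
    have h3 := Subgroup.map_lowerCentralSeries (⊤ : Subgroup (∀ i, G i))
      (QuotientGroup.mk' (aeOne (Filter.hyperfilter ℕ) G)) c
    rw [Subgroup.map_top_of_surjective _ (QuotientGroup.mk'_surjective _), h2,
      Subgroup.map_bot] at h3
    exact h3.symm
  obtain ⟨N, hN⟩ := uniform
    (fun G _ => (⊤ : Subgroup G).lowerCentralSeries c = ⊥) (Filter.hyperfilter ℕ)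
    Filter.hyperfilter_le_cofinite hclosed n s (by
      intro G inst hG htf E hE _
      have : Group.IsNilpotent G := Subgroup.nilpotent_iff_lowerCentralSeries.2 ⟨c, hG⟩
      exact allSf_nilpotent G htf n E hE)
  refine ⟨N, fun G _ hG hN' E hE hs => ?_, fun p hp hNp G _ hpG hG E hE hs => ?_⟩
  · have h2 := hN G inferInstance hG hN' E hE hs
    exact ⟨(stablyFree_iff E hE).2 (sf_of_within E h2), h2⟩
  · have h2 := hN G inferInstance hG (by
      intro g k hk hkN hgk
      obtain ⟨e, he⟩ := hpG g
      have h3 : orderOf g ∣ p ^ e := orderOf_dvd_of_pow_eq_one he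
      have h4 : orderOf g ∣ k := orderOf_dvd_of_pow_eq_one hgk
      have h5 : Nat.Coprime (p ^ e) k := by
        apply Nat.Coprime.pow_left
        exact hp.coprime_iff_not_dvd.2 fun h => absurd (Nat.le_of_dvd hk h) (by omega)
      have h6 : orderOf g ∣ 1 := by
        rw [← h5]
        exact Nat.dvd_gcd h3 h4
      exact orderOf_eq_one_iff.1 (Nat.dvd_one.1 h6)) E hE hs
    exact ⟨(stablyFree_iff E hE).2 (sf_of_within E h2), h2⟩

end Pool.Agent.Results.MP_551055_al.NilpotentLargeTorsion
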