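import Pool.Agent.K6.H28.SF.Ultra
import Pool.Agent.K6.H28.SF.Tf

set_option autoImplicit false

/-! # The vanishing of `K̃₀(ℤG)` for torsion-free groups and uniform bounds for groups with torsion

Every finitely generated projective `ℤG`-module is the row module `(ℤG)ⁿ E` of an idempotent
matrix. Q1 is equivalent to a uniform statement on groups with large torsion: for all `n`, `s` there
is `N` such that over every group without elements of the orders `2, …, N` all idempotent `n × n`
matrices of `ℓ¹`-norm at most `s` are stably free, by means of matrices of size and norm at most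
`N`. The equivalence holds for each pair `(n, s)` separately and inside every class of groups which
is closed under ultraproducts. -/

namespace Pool.Agent.Results.MP_551055_al.UniformBounds

open Matrix Pool.Agent.K6.H28.SF

/-- `G` is torsion-free -/
def TorsionFree (G : Type) [Group G] : Prop := ∀ g : G, IsOfFinOrder g → g = 1

/-- all finitely generated projective `ℤG`-modules are stably free -/
def AllStablyFree (G : Type) [Group G] : Prop :=
  ∀ (P : Type) [AddCommGroup P] [Module (MonoidAlgebra ℤ G) P],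
    Module.Finite (MonoidAlgebra ℤ G) P → Module.Projective (MonoidAlgebra ℤ G) P →
    ∃ n m : ℕ, Nonempty ((P × (Fin n → MonoidAlgebra ℤ G)) ≃ₗ[MonoidAlgebra ℤ G]
      (Fin m → MonoidAlgebra ℤ G))

/-- the statement of Q1 -/
def Q1 : Prop := ∀ (G : Type) [Group G], TorsionFree G → AllStablyFree G

/-- `G` has no elements of the orders `2, …, N`; elements of larger finite order are allowed -/
def NoSmallTorsion (N : ℕ) (G : Type) [Group G] : Prop :=
  ∀ (g : G) (k : ℕ), 0 < k → k ≤ N → g ^ k = 1 → g = 1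

/-- the sum of the absolute values of the coefficients -/
def norm1 {G : Type} (x : MonoidAlgebra ℤ G) : ℕ := ∑ g ∈ x.coeff.support, (x.coeff g).natAbs

/-- the sum of the norms of the entries -/
def matNorm {G : Type} {ι κ : Type} [Fintype ι] [Fintype κ]
    (A : Matrix ι κ (MonoidAlgebra ℤ G)) : ℕ := ∑ i, ∑ j, norm1 (A i j)

/-- the row module `(ℤG)ⁿ E` is stably free -/
def StablyFree {G : Type} [Group G] {n : ℕ} (E : Matrix (Fin n) (Fin n) (MonoidAlgebra ℤ G)) :
    Prop :=
  ∃ a b : ℕ, Nonempty ((LinearMap.range E.vecMulLinear × (Fin a → MonoidAlgebra ℤ G))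
    ≃ₗ[MonoidAlgebra ℤ G] (Fin b → MonoidAlgebra ℤ G))

/-- `E` is stably free by means of matrices of size and norm at most `N`: the matrices `U` and `V`
are mutually inverse isomorphisms between `(ℤG)ⁿ E ⊕ (ℤG)ᵃ` and `(ℤG)ᵇ`. -/
def StablyFreeWithin (N : ℕ) {G : Type} [Group G] {n : ℕ}
    (E : Matrix (Fin n) (Fin n) (MonoidAlgebra ℤ G)) : Prop :=
  ∃ a ≤ N, ∃ b ≤ N, ∃ (U : Matrix (Fin n ⊕ Fin a) (Fin b) (MonoidAlgebra ℤ G))
    (V : Matrix (Fin b) (Fin n ⊕ Fin a) (MonoidAlgebra ℤ G)),
    matNorm U ≤ N ∧ matNorm V ≤ N ∧ U * V = fromBlocks E 0 0 1 ∧ V * U = 1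

/-- the ultraproduct of the groups `G i`: sequences modulo the sequences which are trivial almost
everywhere -/
abbrev Ultraproduct (𝒰 : Ultrafilter ℕ) (G : ℕ → Type) [∀ i, Group (G i)] : Type :=
  (∀ i, G i) ⧸ aeOne 𝒰 G

theorem stablyFree_iff {G : Type} [Group G] {n : ℕ}
    (E : Matrix (Fin n) (Fin n) (MonoidAlgebra ℤ G)) (hE : E * E = E) : StablyFree E ↔ Sf E :=
  (sf_iff_row E hE).symm

theorem sf_of_within {G : Type} [Group G] {n N : ℕ}
    (E : Matrix (Fin n) (Fin n) (MonoidAlgebra ℤ G)) (h : StablyFreeWithin N E) : Sf E := by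
  obtain ⟨a, _, b, _, U, V, _, _, h1, h2⟩ := h
  exact ⟨a, b, U, V, h1, h2⟩

theorem allStablyFree_iff {G : Type} [Group G] : AllStablyFree G ↔ AllSf G :=
  ⟨fun h _ E hE => sf_of_modules h E hE, fun h P _ _ hf hP => modules_of_sf h P hf hP⟩

/-- (1) Let `𝒞` be a class of groups which is closed under the ultraproducts along some
non-principal ultrafilter on `ℕ`, and let `n, s` be numbers. The idempotent `n × n` matrices of norm
at most `s` over the group rings of the torsion-free groups in `𝒞` are stably free if and only if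
there is `N` such that over all groups in `𝒞` without elements of the orders `2, …, N` they are
stably free by means of matrices of size and norm at most `N`.

(2) Q1 is equivalent to the existence of such a number `N`, for all `n` and `s`, for the class of
all groups.

(3) If Q1 is true, then for all `n, s` there is `N` such that over every finite group whose order
has no prime factor `≤ N`, all idempotent `n × n` matrices of norm at most `s` are stably free. -/
theorem result :
    (∀ (𝒰 : Ultrafilter ℕ), (𝒰 : Filter ℕ) ≤ Filter.cofinite →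
      ∀ (𝒞 : ∀ G : Type, Group G → Prop),
      (∀ (G : ℕ → Type) (inst : ∀ i, Group (G i)), (∀ i, 𝒞 (G i) (inst i)) →
        𝒞 (Ultraproduct 𝒰 G) inferInstance) →
      ∀ n s : ℕ,
      ((∀ (G : Type) (inst : Group G), 𝒞 G inst → TorsionFree G →
          ∀ E : Matrix (Fin n) (Fin n) (MonoidAlgebra ℤ G), E * E = E → matNorm E ≤ s →
          StablyFree E) ↔
        ∃ N : ℕ, ∀ (G : Type) (inst : Group G), 𝒞 G inst → NoSmallTorsion N G →
          ∀ E : Matrix (Fin n) (Fin n) (MonoidAlgebra ℤ G), E * E = E → matNorm E ≤ s →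
          StablyFreeWithin N E)) ∧
    (Q1 ↔ ∀ n s : ℕ, ∃ N : ℕ, ∀ (G : Type) [Group G], NoSmallTorsion N G →
      ∀ E : Matrix (Fin n) (Fin n) (MonoidAlgebra ℤ G), E * E = E → matNorm E ≤ s →
      StablyFreeWithin N E) ∧
    (Q1 → ∀ n s : ℕ, ∃ N : ℕ, ∀ (G : Type) [Group G] [Finite G],
      (∀ p : ℕ, p.Prime → p ∣ Nat.card G → N < p) →
      ∀ E : Matrix (Fin n) (Fin n) (MonoidAlgebra ℤ G), E * E = E → matNorm E ≤ s →
      StablyFree E) := by
  classical
  have h1 : ∀ (𝒰 : Ultrafilter ℕ), (𝒰 : Filter ℕ) ≤ Filter.cofinite →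
      ∀ (𝒞 : ∀ G : Type, Group G → Prop),
      (∀ (G : ℕ → Type) (inst : ∀ i, Group (G i)), (∀ i, 𝒞 (G i) (inst i)) →
        𝒞 (Ultraproduct 𝒰 G) inferInstance) →
      ∀ n s : ℕ,
      ((∀ (G : Type) (inst : Group G), 𝒞 G inst → TorsionFree G →
          ∀ E : Matrix (Fin n) (Fin n) (MonoidAlgebra ℤ G), E * E = E → matNorm E ≤ s →
          StablyFree E) ↔
        ∃ N : ℕ, ∀ (G : Type) (inst : Group G), 𝒞 G inst → NoSmallTorsion N G →
          ∀ E : Matrix (Fin n) (Fin n) (MonoidAlgebra ℤ G), E * E = E → matNorm E ≤ s →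
          StablyFreeWithin N E) := by
    intro 𝒰 h𝒰 𝒞 h𝒞 n s
    constructor
    · intro h
      exact uniform 𝒞 𝒰 h𝒰 h𝒞 n s fun G inst hG htf E hE hs =>
        (stablyFree_iff E hE).1 (h G inst hG htf E hE hs)
    · rintro ⟨N, h⟩ G inst hG htf E hE hs
      refine (stablyFree_iff E hE).2 (sf_of_within E (h G inst hG ?_ E hE hs))
      intro g k hk _ hgk
      exact htf g (isOfFinOrder_iff_pow_eq_one.2 ⟨k, hk, hgk⟩)
  have h2 := fun n s => h1 (Filter.hyperfilter ℕ) Filter.hyperfilter_le_cofinite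
    (fun _ _ => True) (fun _ _ _ => trivial) n s
  have h3 : Q1 → ∀ n s : ℕ, ∃ N : ℕ, ∀ (G : Type) [Group G], NoSmallTorsion N G →
      ∀ E : Matrix (Fin n) (Fin n) (MonoidAlgebra ℤ G), E * E = E → matNorm E ≤ s →
      StablyFreeWithin N E := by
    intro h n s
    obtain ⟨N, hN⟩ := (h2 n s).1 fun G inst _ htf E hE _ =>
      (stablyFree_iff E hE).2 (allStablyFree_iff.1 (h G htf) n E hE)
    exact ⟨N, fun G inst => hN G inst trivial⟩
  refine ⟨h1, ⟨h3, ?_⟩, ?_⟩
  · intro h G _ htf
    rw [allStablyFree_iff]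
    intro n E hE
    obtain ⟨N, hN⟩ := h n (matNorm E)
    refine sf_of_within E (hN G ?_ E hE le_rfl)
    intro g k hk _ hgk
    exact htf g (isOfFinOrder_iff_pow_eq_one.2 ⟨k, hk, hgk⟩)
  · intro h n s
    obtain ⟨N, hN⟩ := h3 h n s
    refine ⟨N, fun G _ _ hG E hE hs => (stablyFree_iff E hE).2 (sf_of_within E (hN G ?_ E hE hs))⟩
    intro g k hk hkN hgk
    by_contra hg
    have h4 : orderOf g ≠ 1 := fun h => hg (orderOf_eq_one_iff.1 h)
    obtain ⟨p, hp, hpg⟩ := Nat.exists_prime_and_dvd h4
    have h5 : p ∣ k := hpg.trans (orderOf_dvd_of_pow_eq_one hgk)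
    have h6 := hG p hp (hpg.trans (orderOf_dvd_natCard g))
    have h7 := Nat.le_of_dvd hk h5
    omega

end Pool.Agent.Results.MP_551055_al.UniformBounds
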