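import Pool.Agent.K6.H28.SF.Univ

set_option autoImplicit false

/-! # Universal idempotent matrices and a universal torsion-free group for `K̃₀(ℤG)`

For all `n` and `s` there are finitely many idempotent `n × n` matrices `B` over the group rings of
finitely presented groups such that every idempotent `n × n` matrix of `ℓ¹`-norm at most `s` over
the group ring of any group is the image of one of them under a homomorphism of groups.

There is a countable torsion-free group `U` with finitely many idempotent `n × n` matrices of norm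
at most `s` over `ℤU`, for all `n` and `s`, such that every idempotent `n × n` matrix of norm at
most `s` over `ℤG`, for any torsion-free group `G`, is the image of one of these matrices under a
homomorphism `U → G`. So Q1 is a question on this one group, and for each `(n, s)` on finitely many
matrices over its group ring. -/

namespace Pool.Agent.Results.MP_551055_al.UniversalGroup

open Matrix Pool.Agent.K6.H28.SF

/-- `G` is torsion-free -/
def TorsionFree (G : Type) [Group G] : Prop := ∀ g : G, IsOfFinOrder g → g = 1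

/-- all finitely generated projective `ℤG`-modules are stably free -/
def AllStablyFree (G : Type) [Group G] : Prop :=
  ∀ (P : Type) [AddCommGroup P] [Module (MonoidAlgebra ℤ G) P],
    Module.Finite (MonoidAlgebra ℤ G) P → Module.Projective (MonoidAlgebra ℤ G) P →
    ∃ n m : ℕ, Nonempty ((P × (Fin n → MonoidAlgebra ℤ G)) ≃ₗ[MonoidAlgebra ℤ G]
      (Fin m → MonoidAlgebra ℤ G))

/-- the statement of Q1 -/
def Q1 : Prop := ∀ (G : Type) [Group G], TorsionFree G → AllStablyFree G

/-- the sum of the absolute values of the coefficients -/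
def norm1 {G : Type} (x : MonoidAlgebra ℤ G) : ℕ := ∑ g ∈ x.coeff.support, (x.coeff g).natAbs

/-- the sum of the norms of the entries -/
def matNorm {G : Type} {ι κ : Type} [Fintype ι] [Fintype κ]
    (A : Matrix ι κ (MonoidAlgebra ℤ G)) : ℕ := ∑ i, ∑ j, norm1 (A i j)

/-- the row module `(ℤG)ⁿ E` is stably free -/
def StablyFree {G : Type} [Group G] {n : ℕ} (E : Matrix (Fin n) (Fin n) (MonoidAlgebra ℤ G)) :
    Prop :=
  ∃ a b : ℕ, Nonempty ((LinearMap.range E.vecMulLinear × (Fin a → MonoidAlgebra ℤ G))
    ≃ₗ[MonoidAlgebra ℤ G] (Fin b → MonoidAlgebra ℤ G))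

/-- the image of a matrix under a homomorphism of groups -/
noncomputable def push {G H : Type} [Group G] [Group H] (f : G →* H) {ι κ : Type}
    (A : Matrix ι κ (MonoidAlgebra ℤ G)) : Matrix ι κ (MonoidAlgebra ℤ H) :=
  A.map (MonoidAlgebra.mapDomainRingHom ℤ f)

/-- `R` is a finite set of words and `B` a matrix over the group ring of the free group `F` on
`n * n * s` letters, of norm at most `s`, which is idempotent over the finitely presented group
`F / ⟨⟨R⟩⟩` -/
def IsIdempotentPair (n s : ℕ) (R : Finset (FreeGroup (Fin n × Fin n × Fin s)))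
    (B : Matrix (Fin n) (Fin n) (MonoidAlgebra ℤ (FreeGroup (Fin n × Fin n × Fin s)))) : Prop :=
  matNorm B ≤ s ∧
    push (QuotientGroup.mk' (Subgroup.normalClosure
        (R : Set (FreeGroup (Fin n × Fin n × Fin s))))) B *
      push (QuotientGroup.mk' (Subgroup.normalClosure
        (R : Set (FreeGroup (Fin n × Fin n × Fin s))))) B =
      push (QuotientGroup.mk' (Subgroup.normalClosure
        (R : Set (FreeGroup (Fin n × Fin n × Fin s))))) B

/-- the kernel of the map from `F` to the largest torsion-free quotient of `F / ⟨⟨R⟩⟩` -/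
def torsionFreeKernel {F : Type} [Group F] (R : Set F) : Subgroup F :=
  sInf {K : Subgroup F | K.Normal ∧ R ⊆ K ∧ ∀ g : F, ∀ k : ℕ, 0 < k → g ^ k ∈ K → g ∈ K}

instance {F : Type} [Group F] (R : Set F) : (torsionFreeKernel R).Normal :=
  inferInstanceAs (tfKer R).Normal

/-- the largest torsion-free quotient of `F / ⟨⟨R⟩⟩` -/
abbrev LTF {F : Type} [Group F] (R : Set F) : Type := F ⧸ torsionFreeKernel R

theorem stablyFree_iff {G : Type} [Group G] {n : ℕ}
    (E : Matrix (Fin n) (Fin n) (MonoidAlgebra ℤ G)) (hE : E * E = E) : StablyFree E ↔ Sf E :=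
  (sf_iff_row E hE).symm

theorem allStablyFree_iff {G : Type} [Group G] : AllStablyFree G ↔ AllSf G :=
  ⟨fun h _ E hE => sf_of_modules h E hE, fun h P _ _ hf hP => modules_of_sf h P hf hP⟩

/-- (1) For all `n, s` there is a finite set `S` of pairs `(R, B)` as in `IsIdempotentPair` such
that for every group `G` and every idempotent `n × n` matrix `E` over `ℤG` of norm at most `s`
there are `(R, B) ∈ S` and a homomorphism `F → G` which kills `R` and maps `B` to `E`.

(2) There is a countable torsion-free group `U` such that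
(a) the largest torsion-free quotient of every finitely presented group is a retract of `U`,
(b) for all `n, s` there is a finite set `T` of idempotent `n × n` matrices of norm at most `s` over
`ℤU` such that every idempotent `n × n` matrix of norm at most `s` over `ℤG`, `G` torsion-free, is
the image of a matrix in `T` under a homomorphism `U → G`; hence all these matrices are stably free,
for all torsion-free `G`, if and only if the finitely many matrices in `T` are stably free,
(c) Q1 is true if and only if all finitely generated projective `ℤU`-modules are stably free. -/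
theorem result :
    (∀ n s : ℕ, ∃ S : Set (Finset (FreeGroup (Fin n × Fin n × Fin s)) ×
        Matrix (Fin n) (Fin n) (MonoidAlgebra ℤ (FreeGroup (Fin n × Fin n × Fin s)))),
      S.Finite ∧ (∀ z ∈ S, IsIdempotentPair n s z.1 z.2) ∧
      ∀ (G : Type) [Group G] (E : Matrix (Fin n) (Fin n) (MonoidAlgebra ℤ G)), E * E = E →
        matNorm E ≤ s → ∃ z ∈ S, ∃ φ : FreeGroup (Fin n × Fin n × Fin s) →* G,
          (∀ r ∈ z.1, φ r = 1) ∧ push φ z.2 = E) ∧
    ∃ (U : Type) (_ : Group U), Countable U ∧ TorsionFree U ∧
      (∀ (n : ℕ) (R : Finset (FreeGroup (Fin n))),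
        ∃ (j : LTF (R : Set (FreeGroup (Fin n))) →* U) (r : U →* LTF (R : Set (FreeGroup (Fin n)))),
          r.comp j = MonoidHom.id _) ∧
      (∀ n s : ℕ, ∃ T : Set (Matrix (Fin n) (Fin n) (MonoidAlgebra ℤ U)), T.Finite ∧
        (∀ E' ∈ T, E' * E' = E' ∧ matNorm E' ≤ s) ∧
        (∀ (G : Type) [Group G], TorsionFree G →
          ∀ E : Matrix (Fin n) (Fin n) (MonoidAlgebra ℤ G), E * E = E → matNorm E ≤ s →
            ∃ E' ∈ T, ∃ φ : U →* G, push φ E' = E) ∧
        ((∀ (G : Type) [Group G], TorsionFree G →
          ∀ E : Matrix (Fin n) (Fin n) (MonoidAlgebra ℤ G), E * E = E → matNorm E ≤ s →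
            StablyFree E) ↔ ∀ E' ∈ T, StablyFree E')) ∧
      (Q1 ↔ AllStablyFree U) := by
  classical
  refine ⟨fun n s => universal n s, ?_⟩
  obtain ⟨U, i1, h2, h3, h4⟩ := exists_countable
  refine ⟨U, i1, h2, h3, fun n R => h4 (Sum.inl n) R, fun n s => ?_, fun h => h U h3, fun h => ?_⟩
  · obtain ⟨S, hS, hS1, hS2⟩ := universal n s
    have h5 : ∀ R : Finset (FreeGroup (Fin n × Fin n × Fin s)),
        ∃ (j : LTF (R : Set (FreeGroup (Fin n × Fin n × Fin s))) →* U)
          (r : U →* LTF (R : Set (FreeGroup (Fin n × Fin n × Fin s)))),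
          r.comp j = MonoidHom.id _ := fun R => h4 (Sum.inr (n, s)) R
    choose j r hjr using h5
    let f : (Finset (FreeGroup (Fin n × Fin n × Fin s)) ×
        Matrix (Fin n) (Fin n) (MonoidAlgebra ℤ (FreeGroup (Fin n × Fin n × Fin s)))) →
        Matrix (Fin n) (Fin n) (MonoidAlgebra ℤ U) := fun z =>
      push (j z.1) (push (QuotientGroup.mk' _) z.2)
    have hT1 : ∀ E' ∈ f '' S, E' * E' = E' ∧ matNorm E' ≤ s := by
      rintro _ ⟨z, hz, rfl⟩
      refine ⟨?_, ?_⟩
      · have h6 := universal_idem z.1 z.2 (hS1 z hz).2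
        change (_ : Matrix (Fin n) (Fin n) (MonoidAlgebra ℤ _)).map (gr (j z.1))
          * (_ : Matrix (Fin n) (Fin n) (MonoidAlgebra ℤ _)).map (gr (j z.1)) = _
        rw [← Matrix.map_mul]
        exact congrArg (fun X : Matrix (Fin n) (Fin n) _ => X.map (gr (j z.1))) h6
      · exact (mnrm_map (j z.1) _).trans ((mnrm_map _ _).trans (hS1 z hz).1)
    have hT2 : ∀ (G : Type) [Group G], TorsionFree G →
          ∀ E : Matrix (Fin n) (Fin n) (MonoidAlgebra ℤ G), E * E = E → matNorm E ≤ s →
            ∃ E' ∈ f '' S, ∃ φ : U →* G, push φ E' = E := by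
      intro G _ hG E hE hs
      obtain ⟨z, hz, φ, h1, h6⟩ := hS2 G E hE hs
      have hle := tfKer_le_ker hG φ (z.1 : Set (FreeGroup (Fin n × Fin n × Fin s)))
        fun r hr => h1 r (Finset.mem_coe.1 hr)
      let ψ : LTF (z.1 : Set (FreeGroup (Fin n × Fin n × Fin s))) →* G :=
        QuotientGroup.lift _ φ hle
      have hψ : ψ.comp (QuotientGroup.mk' _) = φ := by
        ext x
        rfl
      refine ⟨_, ⟨z, hz, rfl⟩, ψ.comp (r z.1), ?_⟩
      change ((z.2.map (gr (QuotientGroup.mk' _))).map (gr (j z.1))).map
        (gr (ψ.comp (r z.1))) = E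
      have h8 : ((ψ.comp (r z.1)).comp (j z.1)).comp (QuotientGroup.mk' _) = φ := by
        rw [MonoidHom.comp_assoc (j z.1) (r z.1) ψ, hjr, MonoidHom.comp_id]
        exact hψ
      rw [map_gr_comp, map_gr_comp, h8]
      exact h6
    refine ⟨f '' S, hS.image f, hT1, hT2, fun h E' hE' => h U h3 E' (hT1 E' hE').1 (hT1 E' hE').2,
      fun h G _ hG E hE hs => ?_⟩
    obtain ⟨E', hE', φ, rfl⟩ := hT2 G hG E hE hs
    have h7 := (stablyFree_iff E' (hT1 E' hE').1).1 (h E' hE')
    exact (stablyFree_iff _ hE).2 (h7.map (gr φ))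
  · intro G _ hG
    refine allStablyFree_iff.2 (allSf_of_fp (fun n R => ?_) G hG)
    obtain ⟨j, r, hjr⟩ := h4 (Sum.inl n) R
    exact allSf_retract j r hjr (allStablyFree_iff.1 h)

end Pool.Agent.Results.MP_551055_al.UniversalGroup
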